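import Pool.Agent.H341R2.NF.BC4

/-!
# Zeros and poles at the edge of the L-series of the base changes of an elliptic curve over `ℚ`

`E` is any elliptic curve over `ℚ`.  Consider the `L`-series of `E` over all number fields `F`, and
any local meromorphic continuations of these `L`-series to points `3/2 + iτ` of the edge of absolute
convergence.  All of them have a finite order there, and for pairwise linearly disjoint fields (at
equal heights) the sum of the squares of the differences to the order of the `L`-series of `E` over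
`ℚ`, weighted by `1 / (r_F - 1)`, is at most `4`; here `r_F` is the number of fields in the
decomposition of `F ⊗ F`.
-/

set_option autoImplicit false
open Classical
open scoped NumberField

namespace Pool.Agent.Results.MP_0d9be2_nt.BaseChange

open IsDedekindDomain Filter Topology
open scoped TensorProduct

/-- The hypothesis of the frozen statement `S10971`: `W p` is, for every `p`, an integral model of
`E` with discriminant minimal at `p`. -/
def MinimalModels {K : Type} [Field K] [NumberField K] (E : WeierstrassCurve K)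
    (W : IsDedekindDomain.HeightOneSpectrum (𝓞 K) → WeierstrassCurve (𝓞 K)) : Prop :=
  ∀ p : IsDedekindDomain.HeightOneSpectrum (𝓞 K),
      (∃ C : WeierstrassCurve.VariableChange K, C • (W p).map (algebraMap (𝓞 K) K) = E) ∧
      ∀ W' : WeierstrassCurve (𝓞 K),
        (∃ C : WeierstrassCurve.VariableChange K, C • W'.map (algebraMap (𝓞 K) K) = E) →
        ∀ n : ℕ, (W p).Δ ∈ p.asIdeal ^ n → W'.Δ ∈ p.asIdeal ^ n

/-- The Euler product of `S10971`, computed from the reductions of the models `W p`. -/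
noncomputable def LSeries {K : Type} [Field K] [NumberField K]
    (W : IsDedekindDomain.HeightOneSpectrum (𝓞 K) → WeierstrassCurve (𝓞 K)) (s : ℂ) : ℂ :=
  ∏' p : IsDedekindDomain.HeightOneSpectrum (𝓞 K),
          (1 - ((Ideal.absNorm p.asIdeal : ℂ)
                - (Nat.card {xy : (𝓞 K ⧸ p.asIdeal) × (𝓞 K ⧸ p.asIdeal) //
                    ((W p).map (Ideal.Quotient.mk p.asIdeal)).toAffine.Equation xy.1 xy.2} : ℂ))
                * (Ideal.absNorm p.asIdeal : ℂ) ^ (-s)
            + (if (W p).Δ ∈ p.asIdeal then 0 else (Ideal.absNorm p.asIdeal : ℂ))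
                * (Ideal.absNorm p.asIdeal : ℂ) ^ (-2 * s))⁻¹

theorem minimalModels_iff {K : Type} [Field K] [NumberField K] {E : WeierstrassCurve K}
    {W : IsDedekindDomain.HeightOneSpectrum (𝓞 K) → WeierstrassCurve (𝓞 K)}
    (h : MinimalModels E W) (v : HeightOneSpectrum (𝓞 K)) : H341R2.EC.IsMinAt E v (W v) := by
  have key : ∀ V : WeierstrassCurve (𝓞 K),
      (∃ C : WeierstrassCurve.VariableChange K, C • V.map (algebraMap (𝓞 K) K) = E) ↔
        H341R2.EC.IsModel E V := by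
    intro V
    constructor
    · rintro ⟨C, hC⟩
      exact ⟨C⁻¹, by rw [← hC, smul_smul, inv_mul_cancel, one_smul]⟩
    · rintro ⟨C, hC⟩
      exact ⟨C⁻¹, by rw [← hC, smul_smul, inv_mul_cancel, one_smul]⟩
  exact ⟨(key _).1 (h v).1, fun V hV => (h v).2 V ((key V).2 hV)⟩

theorem lseries_eq {K : Type} [Field K] [NumberField K]
    (W : IsDedekindDomain.HeightOneSpectrum (𝓞 K) → WeierstrassCurve (𝓞 K)) (s : ℂ) :
    LSeries W s = ∏' p, ((H341R2.sysK K).lfac (fun v => (H341R2.EC.trc W v : ℂ))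
      (H341R2.EC.dlt W) p s)⁻¹ := by
  unfold LSeries
  refine tprod_congr fun p => ?_
  congr 1
  unfold H341R2.NormSys.lfac H341R2.EC.trc H341R2.EC.dlt
  have hN : (H341R2.sysK K).N p = Ideal.absNorm p.asIdeal := rfl
  have h0 : ((Ideal.absNorm p.asIdeal : ℕ) : ℂ) ≠ 0 := (H341R2.sysK K).N_ne p
  have hcard : (Nat.card {xy : (𝓞 K ⧸ p.asIdeal) × (𝓞 K ⧸ p.asIdeal) //
      ((W p).map (Ideal.Quotient.mk p.asIdeal)).toAffine.Equation xy.1 xy.2}) =
      H341R2.EC.aff (H341R2.EC.red p (W p)) := by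
    unfold H341R2.EC.aff H341R2.EC.red
    refine Nat.card_congr (Equiv.subtypeEquivRight fun xy => ?_)
    exact WeierstrassCurve.Affine.equation_iff _ _
  have e2 : ((Ideal.absNorm p.asIdeal : ℕ) : ℂ) ^ (1 - 2 * s) =
      (Ideal.absNorm p.asIdeal : ℂ) * (Ideal.absNorm p.asIdeal : ℂ) ^ (-2 * s) := by
    have : (1 - 2 * s : ℂ) = 1 + (-2 * s) := by ring
    rw [this, Complex.cpow_add _ _ h0, Complex.cpow_one]
  rw [hcard, hN, e2]
  have hnm : (((Pool.Agent.H921R2.TatePole.nm p : ℤ) -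
      (H341R2.EC.aff (H341R2.EC.red p (W p)) : ℤ) : ℤ) : ℂ) =
      (Ideal.absNorm p.asIdeal : ℂ) - (H341R2.EC.aff (H341R2.EC.red p (W p)) : ℂ) := by
    push_cast
    rfl
  change _ = 1 - (((Pool.Agent.H921R2.TatePole.nm p : ℤ) -
      (H341R2.EC.aff (H341R2.EC.red p (W p)) : ℤ) : ℤ) : ℂ) * _ + _
  rw [hnm]
  split_ifs <;> ring

/-- **Orders at the edge of the base changes of an elliptic curve over `ℚ`.**  `E` is an elliptic
curve over `ℚ` and `(F k, τ k)`, `k ∈ T`, are finitely many number fields `F k ≠ ℚ` and heights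
`τ k`, such that fields with the same height are linearly disjoint (`F k ⊗ F l` is a field).  Suppose
that `Λ k` is meromorphic at `3/2 + iτ_k` and agrees near this point, to the right of the line
`Re s = 3/2`, with the `L`-series of `E` over `F k`, and `Λ0` with that of `E` over `ℚ`.  Then all
orders `m k`, `n k` of `Λ k` and `Λ0` are finite and `∑ (m k - n k)² / (r_k - 1) ≤ 4`, where `r_k` is
the number of fields in the decomposition of `F k ⊗ F k`. -/
theorem result (E : WeierstrassCurve ℚ) (hE : E.IsElliptic) {κ : Type} (T : Finset κ)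
    (F : κ → Type) [∀ k, Field (F k)] [∀ k, NumberField (F k)] (τ : κ → ℝ)
    (hF : ∀ k ∈ T, 1 < Module.finrank ℚ (F k))
    (hsep : ∀ k ∈ T, ∀ l ∈ T, k ≠ l → τ k = τ l → IsField (F k ⊗[ℚ] F l))
    (M : ∀ k, HeightOneSpectrum (𝓞 (F k)) → WeierstrassCurve (𝓞 (F k)))
    (hM : ∀ k ∈ T, MinimalModels (E.map (algebraMap ℚ (F k))) (M k))
    (M0 : HeightOneSpectrum (𝓞 ℚ) → WeierstrassCurve (𝓞 ℚ)) (hM0 : MinimalModels E M0)
    (Λ : κ → ℂ → ℂ) (hΛ : ∀ k ∈ T, MeromorphicAt (Λ k) (3 / 2 + τ k * Complex.I))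
    (hΛL : ∀ k ∈ T, ∀ᶠ s : ℂ in 𝓝 (3 / 2 + τ k * Complex.I), (3 / 2 : ℝ) < s.re →
      Λ k s = LSeries (M k) s)
    (Λ0 : ℂ → ℂ) (hΛ0 : ∀ k ∈ T, MeromorphicAt Λ0 (3 / 2 + τ k * Complex.I))
    (hΛ0L : ∀ k ∈ T, ∀ᶠ s : ℂ in 𝓝 (3 / 2 + τ k * Complex.I), (3 / 2 : ℝ) < s.re →
      Λ0 s = LSeries M0 s) :
    ∃ m n : κ → ℤ,
      (∀ k ∈ T, meromorphicOrderAt (Λ k) (3 / 2 + τ k * Complex.I) = m k) ∧
      (∀ k ∈ T, meromorphicOrderAt Λ0 (3 / 2 + τ k * Complex.I) = n k) ∧
      ∑ k ∈ T, ((m k : ℝ) - n k) ^ 2 /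
        ((Nat.card (MaximalSpectrum (F k ⊗[ℚ] F k)) : ℝ) - 1) ≤ 4 := by
  have hE0 : E.map (algebraMap ℚ ℚ) = E := by
    rw [Algebra.algebraMap_self]
    exact E.map_id
  have hpath : ∀ {K : Type} [Field K] [NumberField K]
      (W : HeightOneSpectrum (𝓞 K) → WeierstrassCurve (𝓞 K)) (f : ℂ → ℂ) (t : ℝ),
      (∀ᶠ s : ℂ in 𝓝 (3 / 2 + t * Complex.I), (3 / 2 : ℝ) < s.re → f s = LSeries W s) →
      ∀ᶠ ε : ℝ in 𝓝[>] 0, f (3 / 2 + t * Complex.I + ε) =
        ∏' p, ((H341R2.sysK K).lfac (fun v => (H341R2.EC.trc W v : ℂ)) (H341R2.EC.dlt W) p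
          (3 / 2 + t * Complex.I + ε))⁻¹ := by
    intro K _ _ W f t h
    have h1 := (H341R2.path_tendsto' (3 / 2 + t * Complex.I)).eventually h
    filter_upwards [h1, self_mem_nhdsWithin] with ε h2 h3
    have hε : (0 : ℝ) < ε := h3
    rw [h2 (by simp; linarith)]
    exact lseries_eq W _
  exact H341R2.EC.base_change E hE T F τ hF hsep M (fun k hk v => minimalModels_iff (hM k hk) v)
    M0 (fun v => minimalModels_iff (by rw [hE0]; exact hM0) v) Λ hΛ
    (fun k hk => hpath (M k) (Λ k) (τ k) (hΛL k hk)) (fun _ => Λ0) hΛ0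
    (fun k hk => hpath M0 Λ0 (τ k) (hΛ0L k hk))

end Pool.Agent.Results.MP_0d9be2_nt.BaseChange
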